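import Pool.Agent.helper7.BlP.Search
import Pool.Agent.helper17.DyS.Avg

/-!
# The total influence is large
-/

set_option autoImplicit false
open scoped Classical
open Finset Filter Topology Pool.Agent.helper17.Dya Pool.Agent.helper17.DyS Pool.Agent.helper7.Blk

namespace Pool.Agent.helper7.BlP

variable {η : ℕ} [Fact (1 ≤ η)]

theorem infl_big {c A : ℝ} (hc : 0 < c) (hA : 0 < A) : ∃ C : ℝ, 0 < C ∧ ∀ (n k : ℕ) (p : ℝ), 0 ≤ p → p ≤ 1 →
    1 ≤ k → k ≤ n → (∀ m : ℕ, k ≤ m → m ≤ n → 1 - TB η m p ≤ A * Real.exp (-(c * m))) →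
    (n : ℝ) ^ 2 * (TB η n p * (1 - TB η n p)) ≤ C * (k : ℝ) ^ 2 * Infl p (AlB η n cube) := by
  obtain ⟨S, hS⟩ : ∃ S : ℝ, S = ∑' m : ℕ, ((m : ℝ) + 2) ^ 2 * Real.exp (-(c * m)) := ⟨_, rfl⟩
  have hS0 : 0 ≤ S := by
    rw [hS]
    exact tsum_nonneg fun m => by positivity
  refine ⟨9 * (4 + 2 * A * S), by positivity, ?_⟩
  intro n k p h0 h1 hk1 hkn hT
  obtain ⟨M, hM⟩ : ∃ M : ℕ, M = (n + 2) / 3 := ⟨_, rfl⟩
  have hM1 : 3 * M < n + 3 := by omega
  have hM2 : n ≤ 3 * M := by omega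
  have hk0 : (1 : ℝ) ≤ k := by exact_mod_cast hk1
  -- the coefficient
  let f : ℕ × ℕ → It n → ℝ := fun q t => ((if ∀ i, shp (avgD n q.1 q.2) n k i ≤ t.1.1 i then (1 : ℝ) else 0) +
      ∑ m ∈ Finset.Ico k n, if ∀ i, shp (avgD n q.1 q.2) n (m + 1) i ≤ t.1.1 i then 2 * (1 - TB η m p) else 0)
  have hTle : ∀ m, 0 ≤ 1 - TB η m p := by
    intro m
    have := Pr_le_one (p := p) h0 h1 (AlB η m cube)
    unfold TB
    linarith
  have hcoef : ∀ t : It n, ∑ q ∈ range M ×ˢ range M, f q t ≤ (4 + 2 * A * S) * (k : ℝ) ^ 2 := by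
    intro t
    have e1 : ∑ q ∈ range M ×ˢ range M, (if ∀ i, shp (avgD n q.1 q.2) n k i ≤ t.1.1 i then (1 : ℝ) else 0) ≤
        ((k : ℝ) + 1) ^ 2 := by
      rw [Finset.sum_boole]
      exact_mod_cast avg_count (m := k) hM1 t
    have e2 : ∀ m ∈ Finset.Ico k n, ∑ q ∈ range M ×ˢ range M,
        (if ∀ i, shp (avgD n q.1 q.2) n (m + 1) i ≤ t.1.1 i then 2 * (1 - TB η m p) else 0) ≤
          2 * A * (((m : ℝ) + 2) ^ 2 * Real.exp (-(c * m))) := by
      intro m hm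
      rw [mem_Ico] at hm
      have e3 : ∑ q ∈ range M ×ˢ range M,
          (if ∀ i, shp (avgD n q.1 q.2) n (m + 1) i ≤ t.1.1 i then 2 * (1 - TB η m p) else 0) =
          (((range M ×ˢ range M).filter
            (fun q : ℕ × ℕ => ∀ i, shp (avgD n q.1 q.2) n (m + 1) i ≤ t.1.1 i)).card : ℝ) *
              (2 * (1 - TB η m p)) := by
        rw [← Finset.sum_filter, Finset.sum_const, nsmul_eq_mul]
      rw [e3]
      have e4 : (((range M ×ˢ range M).filter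
            (fun q : ℕ × ℕ => ∀ i, shp (avgD n q.1 q.2) n (m + 1) i ≤ t.1.1 i)).card : ℝ) ≤
            ((m : ℝ) + 2) ^ 2 := by
        have := avg_count (m := m + 1) hM1 t
        have h5 : ((m : ℝ) + 2) ^ 2 = (((m + 1 + 1) ^ 2 : ℕ) : ℝ) := by
          push_cast
          ring
        rw [h5]
        exact_mod_cast this
      have e5 := hT m hm.1 hm.2.le
      have e6 := hTle m
      have e7 : 0 ≤ ((m : ℝ) + 2) ^ 2 := by positivity
      calc _ ≤ ((m : ℝ) + 2) ^ 2 * (2 * (1 - TB η m p)) := mul_le_mul_of_nonneg_right e4 (by linarith)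
        _ ≤ ((m : ℝ) + 2) ^ 2 * (2 * (A * Real.exp (-(c * m)))) :=
            mul_le_mul_of_nonneg_left (by linarith) e7
        _ = _ := by ring
    have e8 : ∑ q ∈ range M ×ˢ range M, f q t = ∑ q ∈ range M ×ˢ range M,
        (if ∀ i, shp (avgD n q.1 q.2) n k i ≤ t.1.1 i then (1 : ℝ) else 0) +
        ∑ m ∈ Finset.Ico k n, ∑ q ∈ range M ×ˢ range M,
          (if ∀ i, shp (avgD n q.1 q.2) n (m + 1) i ≤ t.1.1 i then 2 * (1 - TB η m p) else 0) := by
      rw [Finset.sum_comm (s := Finset.Ico k n), ← Finset.sum_add_distrib]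
    rw [e8]
    have e9 : ∑ m ∈ Finset.Ico k n, 2 * A * (((m : ℝ) + 2) ^ 2 * Real.exp (-(c * m))) ≤ 2 * A * S := by
      rw [← Finset.mul_sum]
      refine mul_le_mul_of_nonneg_left ?_ (by positivity)
      rw [hS]
      exact (avg_summable hc).sum_le_tsum _ fun m _ => by positivity
    have e10 := Finset.sum_le_sum e2
    have e11 : 2 * A * S ≤ 2 * A * S * (k : ℝ) ^ 2 := by
      have : (1 : ℝ) ≤ (k : ℝ) ^ 2 := one_le_pow₀ hk0
      have h6 : 0 ≤ 2 * A * S := by positivity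
      nlinarith
    have e12 : ((k : ℝ) + 1) ^ 2 ≤ 4 * (k : ℝ) ^ 2 := by nlinarith
    calc _ ≤ ((k : ℝ) + 1) ^ 2 + 2 * A * S := add_le_add e1 (e10.trans e9)
      _ ≤ 4 * (k : ℝ) ^ 2 + 2 * A * S * (k : ℝ) ^ 2 := add_le_add e12 e11
      _ = _ := by ring
  have hmain : ∑ q ∈ range M ×ˢ range M, TB η n p * (1 - TB η n p) ≤
      ∑ q ∈ range M ×ˢ range M, ∑ t : It n, f q t * Pr p (Piv (AlB η n cube) t) :=
    Finset.sum_le_sum fun q _ => search (η := η) hkn (avgD n q.1 q.2) h0 h1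
  rw [Finset.sum_const, card_product, card_range, nsmul_eq_mul, Finset.sum_comm] at hmain
  have hmain2 : ∑ t : It n, ∑ q ∈ range M ×ˢ range M, f q t * Pr p (Piv (AlB η n cube) t) ≤
      (4 + 2 * A * S) * (k : ℝ) ^ 2 * Infl p (AlB η n cube) := by
    unfold Infl
    rw [Finset.mul_sum]
    refine Finset.sum_le_sum fun t _ => ?_
    rw [← Finset.sum_mul]
    exact mul_le_mul_of_nonneg_right (hcoef t) (Pr_nonneg h0 h1 _)
  have hTT : 0 ≤ TB η n p * (1 - TB η n p) := mul_nonneg (Pr_nonneg h0 h1 _) (hTle n)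
  have hnM : (n : ℝ) ^ 2 ≤ 9 * (M : ℝ) ^ 2 := by
    have : (n : ℝ) ≤ 3 * M := by exact_mod_cast hM2
    have h7 : (0 : ℝ) ≤ n := Nat.cast_nonneg n
    nlinarith
  calc (n : ℝ) ^ 2 * (TB η n p * (1 - TB η n p)) ≤ 9 * (M : ℝ) ^ 2 * (TB η n p * (1 - TB η n p)) :=
        mul_le_mul_of_nonneg_right hnM hTT
    _ = 9 * (((M * M : ℕ) : ℝ) * (TB η n p * (1 - TB η n p))) := by push_cast; ring
    _ ≤ 9 * ((4 + 2 * A * S) * (k : ℝ) ^ 2 * Infl p (AlB η n cube)) := by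
        have := hmain.trans hmain2
        linarith
    _ = _ := by ring


end Pool.Agent.helper7.BlP
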