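import Pool.Agent.helper7.Blk.Above
import Pool.Agent.helper17.DyS.Sym
import Pool.Agent.helper78.Blk.Scale
import Pool.Agent.helper51.Blk.Sym

/-!
# Basic properties of the event that a box has a branching tiling
-/

set_option autoImplicit false
open scoped Classical
open Finset Filter Topology Pool.Agent.helper17.Dya Pool.Agent.helper17.DyS Pool.Agent.helper7.Blk

namespace Pool.Agent.helper7.BlP

variable {η : ℕ} [Fact (1 ≤ η)]

lemma AlB_incr (h n : ℕ) (B : Tl) : Incr (AlB h n B) := by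
  rintro ω ω' hω ⟨R, h1, h2, h3⟩
  refine ⟨R, fun b hb => ⟨?_, (h1 b hb).2⟩, h2, h3⟩
  have h4 := hω b
  rw [(h1 b hb).1] at h4
  exact top_le_iff.1 h4

lemma Good_mono {n h : ℕ} {R R' : Set (It n)} (hR : R ⊆ R') {B : Tl} (H : Good h R B) :
    Good h R' B := by
  induction H with
  | small B hU hn => exact .small B (hU.mono hR) hn
  | two B C D hU hC hD hCD _ _ ihC ihD => exact .two B C D (hU.mono hR) hC hD hCD ihC ihD

/-- two branching tilings of the halves give a branching tiling -/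
theorem AlB_split {h n : ℕ} (hh : 1 ≤ h) {B : Tl} (hB : Vp B) (i : Fin 3) (hi : B.1 i + 1 ≤ n)
    {ω : It n → Bool} (H0 : AlB h n (ch B i 0) ω) (H1 : AlB h n (ch B i 1) ω) : AlB h n B ω := by
  obtain ⟨R, hR, hR2, hR3⟩ := H0
  obtain ⟨R', hR', hR2', hR3'⟩ := H1
  have hU : Un (R ∪ R') B := by
    intro x hx hB
    rcases ch_cover hi hB with h | h
    · obtain ⟨b, ⟨hb, hc⟩, hu⟩ := hR2 x hx h
      exact ⟨b, Or.inl hb, (hR b hb).2.trans (Sb_ch (by norm_num)), hc⟩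
    · obtain ⟨b, ⟨hb, hc⟩, hu⟩ := hR2' x hx h
      exact ⟨b, Or.inr hb, (hR' b hb).2.trans (Sb_ch (by norm_num)), hc⟩
  refine ⟨R ∪ R', ?_, ?_, ?_⟩
  · rintro b (hb | hb)
    · exact ⟨(hR b hb).1, (hR b hb).2.trans (Sb_ch (by norm_num))⟩
    · exact ⟨(hR' b hb).1, (hR' b hb).2.trans (Sb_ch (by norm_num))⟩
  · intro x hx hB
    rcases ch_cover hi hB with h | h
    · obtain ⟨b, ⟨hb, hc⟩, hu⟩ := hR2 x hx h
      refine ⟨b, ⟨Or.inl hb, hc⟩, ?_⟩
      rintro b' ⟨hb' | hb', hc'⟩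
      · exact hu b' ⟨hb', hc'⟩
      · exact (ch_disj h (Cv_of_Sb b'.2.le (hR' b' hb').2 hc')).elim
    · obtain ⟨b, ⟨hb, hc⟩, hu⟩ := hR2' x hx h
      refine ⟨b, ⟨Or.inr hb, hc⟩, ?_⟩
      rintro b' ⟨hb' | hb', hc'⟩
      · exact (ch_disj (Cv_of_Sb b'.2.le (hR b' hb').2 hc') h).elim
      · exact hu b' ⟨hb', hc'⟩
  · refine .two B (ch B i 0) (ch B i 1) hU
      ⟨Vp_ch hB i (by norm_num), Sb_ch (by norm_num), ?_⟩
      ⟨Vp_ch hB i (by norm_num), Sb_ch (by norm_num), ?_⟩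
      (fun x _ h4 h5 => ch_disj h4 h5) (Good_mono Set.subset_union_left hR3)
      (Good_mono Set.subset_union_right hR3')
    · rw [od_ch B hB i (by norm_num)]
      omega
    · rw [od_ch B hB i (by norm_num)]
      omega

/-- the same with the instance -/
theorem AlB_spl {n : ℕ} {B : Tl} (hB : Vp B) (i : Fin 3) (hi : B.1 i + 1 ≤ n)
    {ω : It n → Bool} (H0 : AlB η n (ch B i 0) ω) (H1 : AlB η n (ch B i 1) ω) : AlB η n B ω :=
  AlB_split Fact.out hB i hi H0 H1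

theorem Pr_AlB {h n m : ℕ} {p : ℝ} {B : Tl} (hm : m ≤ n) (hB : Vl (n - m) B) :
    Pr p (AlB h n B) = TB h m p := Pool.Agent.helper78.Blk.Pr_AlB hm hB

theorem piv_le {h n : ℕ} {p : ℝ} (h0 : 0 ≤ p) (h1 : p ≤ 1) (b : It n) :
    2 ^ n * Pr p (Piv (AlB h n cube) b) ≤ Infl p (AlB h n cube) :=
  Pool.Agent.helper51.Blk.pivB_le h0 h1 b

end Pool.Agent.helper7.BlP
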