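import Pool.Agent.helper7.BlP.Sharp
import Pool.Agent.helper17.DyS.Crit

/-!
# Windows below the critical point
-/

set_option autoImplicit false
open scoped Classical
open Finset Filter Topology Pool.Agent.helper17.Dya Pool.Agent.helper17.DyS Pool.Agent.helper7.Blk

namespace Pool.Agent.helper7.BlP

variable {η : ℕ} [Fact (1 ≤ η)]

theorem super {p q : ℝ} (hp : 0 < p) (hpq : p < q) (hq : q < 1)
    (ht : Tendsto (fun n => TB η n p) atTop (nhds 1)) :
    ∃ c : ℝ, 0 < c ∧ ∃ N : ℕ, ∀ n : ℕ, N ≤ n → 1 - TB η n q ≤ Real.exp (-(c * (n : ℝ) ^ 2)) := by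
  obtain ⟨c, hc, h⟩ := win2 (η := η) hp hpq hq
  have h1 : ∀ᶠ n in atTop, 1 / 2 < TB η n p := ht.eventually (lt_mem_nhds (by norm_num))
  obtain ⟨k0, hk0⟩ := eventually_atTop.1 h1
  have hk : (0 : ℝ) < ((k0 + 1 : ℕ) : ℝ) := by positivity
  refine ⟨c / ((k0 + 1 : ℕ) : ℝ) ^ 2, by positivity, k0 + 1, fun n hn => ?_⟩
  have h2 := h (k0 + 1) n (by omega) hn fun m hm _ => (hk0 m (by omega)).le
  refine h2.trans (le_of_eq ?_)
  congr 2
  field_simp

lemma halving {p : ℝ} (h0 : 0 ≤ p) (h1 : p ≤ 1) {j n : ℕ} (h : j ≤ n) :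
    1 - TB η n p ≤ 2 ^ (n - j) * (1 - TB η j p) := by
  induction n, h using Nat.le_induction with
  | base => simp
  | succ n hn ih =>
    have h2 := T_succ (η := η) (n := n) h0 h1
    have h3 := T_le_one (η := η) (n := n) h0 h1
    rw [show n + 1 - j = n - j + 1 by omega, pow_succ]
    nlinarith

theorem window {p q : ℝ} (h0 : 0 ≤ p) (hpq : p < q) (hq : q < 1)
    (hn : ¬ Tendsto (fun n => TB η n q) atTop (nhds 1)) :
    ∃ K : ℕ, ∃ c : ℝ, 0 < c ∧ c ≤ 1 ∧ ∃ N : ℕ, ∀ k : ℕ, N ≤ k → ∃ n : ℕ, k ≤ n ∧ n ≤ K * k ∧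
      ∀ j : ℕ, (1 - c) * n ≤ j → j ≤ n → TB η j p ≤ Real.exp (-(c * j)) := by
  -- intermediate densities
  set p1 : ℝ := (2 * p + q) / 3 with hp1
  set p2 : ℝ := (p + 2 * q) / 3 with hp2
  have e1 : 0 < p1 := by rw [hp1]; linarith
  have e2 : p < p1 := by rw [hp1]; linarith
  have e3 : p1 < p2 := by rw [hp1, hp2]; linarith
  have e4 : p2 < q := by rw [hp2]; linarith
  set r : ℝ := max p (p1 / 2) with hr
  have e5 : r < p1 := max_lt e2 (by linarith)
  have e6 : p1 / 2 ≤ r := le_max_right _ _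
  have e7 : p ≤ r := le_max_left _ _
  set a : ℝ := min (min (p1 / 2) (1 - q)) (1 / 2) with ha
  have a0 : 0 < a := lt_min (lt_min (by linarith) (by linarith)) (by norm_num)
  have a1 : a ≤ p1 / 2 := (min_le_left _ _).trans (min_le_left _ _)
  have a2 : a ≤ 1 - q := (min_le_left _ _).trans (min_le_right _ _)
  obtain ⟨c1, hc1, hg, hd⟩ := win1 (η := η) a0 (min_le_right _ _)
  obtain ⟨c2, hc2, hwK⟩ := win3 (η := η) (lt_trans e1 e3) e4 hq
  set c3 : ℝ := c1 * (p2 - p1) with hc3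
  have c3p : 0 < c3 := mul_pos hc1 (by linarith)
  set c4 : ℝ := c1 * (p1 - r) with hc4
  have c4p : 0 < c4 := mul_pos hc1 (by linarith)
  have hl8 : 0 < Real.log 8 := Real.log_pos (by norm_num)
  have hl2 : Real.log 2 < 1 := by
    have := Real.log_two_lt_d9
    linarith
  have hl2' : 0 < Real.log 2 := Real.log_pos (by norm_num)
  obtain ⟨k1, hw⟩ := hwK (⌈2 * Real.log 8 / c2⌉₊ + 1)
  refine ⟨⌈2 * Real.log 8 / c2⌉₊ + 1, min (1 / 2) (min (c3 / 4) c4),
    lt_min (by norm_num) (lt_min (by linarith) c4p), (min_le_left _ _).trans (by norm_num),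
    max k1 (⌈4 / c3⌉₊ + 1), fun k hk' => ?_⟩
  have hk : ⌈4 / c3⌉₊ + 1 ≤ k := (le_max_right _ _).trans hk'
  have hkk : k1 ≤ k := (le_max_left _ _).trans hk'
  set K : ℕ := ⌈2 * Real.log 8 / c2⌉₊ + 1 with hK
  have hK1 : 2 * Real.log 8 < c2 * K := by
    have h1 : 2 * Real.log 8 / c2 < K := by
      rw [hK]
      push_cast
      have := Nat.le_ceil (2 * Real.log 8 / c2)
      linarith
    rw [div_lt_iff₀ hc2] at h1
    linarith
  have hk1 : 1 ≤ k := by omega
  have hk3 : 4 / c3 < k := by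
    have h1 := Nat.le_ceil (4 / c3)
    have h2 : ((⌈4 / c3⌉₊ + 1 : ℕ) : ℝ) ≤ k := by exact_mod_cast hk
    push_cast at h2
    linarith
  have hkK : k ≤ K * k := by
    have : 1 ≤ K := by omega
    calc k = 1 * k := by ring
      _ ≤ K * k := Nat.mul_le_mul_right k this
  -- a bad scale in the window
  have hbad : ∃ n, k ≤ n ∧ n ≤ K * k ∧ TB η n p2 < 1 / 2 := by
    by_contra hcon
    push Not at hcon
    apply hn
    have h1 := hw k (K * k) hkk hkK (le_refl _) hcon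
    apply tends_one (η := η) (k := K * k) (by linarith) hq.le
    refine lt_of_le_of_lt h1 ?_
    rw [eighth, Real.exp_lt_exp, neg_lt_neg_iff]
    have hk0 : (0 : ℝ) < k := by exact_mod_cast hk1
    have h2 : c2 * (((K * k : ℕ) : ℝ) ^ 2 / (k : ℝ)) = c2 * K * (K * k : ℕ) := by
      push_cast
      field_simp
    rw [h2]
    have h3 : (1 : ℝ) ≤ ((K * k : ℕ) : ℝ) := by exact_mod_cast hk1.trans hkK
    nlinarith
  obtain ⟨n, hn1, hn2, hn3⟩ := hbad
  refine ⟨n, hn1, hn2, fun j hj1 hj2 => ?_⟩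
  have hmin1 : min (1 / 2 : ℝ) (min (c3 / 4) c4) ≤ 1 / 2 := min_le_left _ _
  have hmin2 : min (1 / 2 : ℝ) (min (c3 / 4) c4) ≤ c3 / 4 :=
    (min_le_right _ _).trans (min_le_left _ _)
  have hmin3 : min (1 / 2 : ℝ) (min (c3 / 4) c4) ≤ c4 :=
    (min_le_right _ _).trans (min_le_right _ _)
  set c : ℝ := min (1 / 2 : ℝ) (min (c3 / 4) c4) with hc
  have hn0 : 4 / c3 < n := lt_of_lt_of_le hk3 (by exact_mod_cast hn1)
  have hn4 : 4 < c3 * n := by
    rw [div_lt_iff₀ c3p] at hn0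
    linarith
  have hnpos : (0 : ℝ) < n := lt_trans (by positivity) hn0
  -- the scale `j` is bad at the density `p1`
  have hj3 : TB η j p1 < 1 / 2 := by
    by_contra hcon
    push Not at hcon
    have h1 := hg j p1 p2 (by linarith) e3.le (by linarith) hcon
    have h2 := halving (η := η) (p := p2) (by linarith) (by linarith) hj2
    have h3 : 1 / 2 < 2 ^ (n - j) * Real.exp (-(c3 * j)) := by
      calc (1 : ℝ) / 2 < 1 - TB η n p2 := by linarith
        _ ≤ 2 ^ (n - j) * (1 - TB η j p2) := h2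
        _ ≤ _ := mul_le_mul_of_nonneg_left h1 (by positivity)
    have h4 : (2 : ℝ) ^ (n - j) = Real.exp ((n - j) * Real.log 2) := by
      rw [← Nat.cast_sub hj2, Real.exp_nat_mul, Real.exp_log (by norm_num)]
    have h5 : (1 : ℝ) / 2 = Real.exp (-Real.log 2) := by
      rw [Real.exp_neg, Real.exp_log (by norm_num)]
      norm_num
    rw [h4, h5, ← Real.exp_add, Real.exp_lt_exp] at h3
    have h6 : (n : ℝ) - j ≤ c * n := by linarith
    have h10 : (0 : ℝ) ≤ n - j := by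
      have : (j : ℝ) ≤ n := by exact_mod_cast hj2
      linarith
    have h7 : (n : ℝ) / 2 ≤ j := by
      have := mul_le_mul_of_nonneg_right hmin1 hnpos.le
      linarith
    have h9 : (n : ℝ) - j ≤ c3 / 4 * n := h6.trans (mul_le_mul_of_nonneg_right hmin2 hnpos.le)
    have h8 : ((n : ℝ) - j) * Real.log 2 ≤ c3 / 4 * n :=
      (mul_le_of_le_one_right h10 hl2.le).trans h9
    have h11 : c3 * (n / 2) ≤ c3 * j := mul_le_mul_of_nonneg_left h7 c3p.le
    linarith
  have h1 := hd j r p1 (by linarith) e5.le (by linarith) hj3.le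
  have h2 : TB η j p ≤ TB η j r := T_mono (η := η) h0 e7 (by linarith)
  refine (h2.trans h1).trans (Real.exp_le_exp.2 (neg_le_neg ?_))
  exact mul_le_mul_of_nonneg_right hmin3 (Nat.cast_nonneg j)


end Pool.Agent.helper7.BlP
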