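import Pool.Agent.helper7.BlP.Crit
import Pool.Agent.helper7.Blk.Below

/-!
# The critical point of the `h`-branching tilings
-/

set_option autoImplicit false
open scoped Classical
open Finset Filter Topology Pool.Agent.helper17.Dya Pool.Agent.helper17.DyS Pool.Agent.helper7.Blk

namespace Pool.Agent.helper7.BlP

/-- branching tilings after a block of small probabilities of branching tilings -/
theorem main2 {h n N : ℕ} {p ε : ℝ} (h0 : 0 ≤ p) (h1 : p ≤ 1) (hh : 1 ≤ h) (hN : h < N)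
    (hε : ∀ m, N - h ≤ m → m < N → TB h m p ≤ ε) (hδ : (64 ^ h) ^ 2 * ε ≤ 1) (hε0 : 0 ≤ ε) :
    ∀ m, N - h ≤ m → m ≤ n → ∀ B : Tl, Vl (n - m) B →
      (64 ^ h) ^ 2 * Pr p (AlB h n B) ≤ ((64 ^ h) ^ 2 * ε) ^ 2 ^ ((m - (N - h)) / h) := by
  have hδ0 : 0 ≤ (64 ^ h) ^ 2 * ε := by positivity
  have hM : (0 : ℝ) < (64 ^ h) ^ 2 := by positivity
  intro m
  induction m using Nat.strong_induction_on with
  | _ m ih =>
    intro hm hmn B hB
    rcases Nat.lt_or_ge m N with hmN | hmN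
    · have e1 : (m - (N - h)) / h = 0 := Nat.div_eq_of_lt (by omega)
      rw [e1, pow_zero, pow_one]
      refine mul_le_mul_of_nonneg_left ?_ hM.le
      rw [Pr_AlB hmn hB]
      exact hε m hm hmN
    · set r := (m - h - (N - h)) / h with hr
      have e1 : (m - (N - h)) / h = r + 1 := by
        rw [hr, show m - (N - h) = m - h - (N - h) + h by omega,
          Nat.add_div_right _ (by omega)]
      rw [e1]
      set A : ℝ := ((64 ^ h) ^ 2 * ε) ^ 2 ^ r / (64 ^ h) ^ 2 with hA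
      have hod : od B = n - m := hB.1
      have h2 := step (h := h) (n := n) (A := A) (B := B) h0 h1 (by omega) (fun C hC hC1 hC2 => by
        have h3 := ih (n - od C) (by omega) (by omega) (by omega) C
          ⟨by change od C = _; omega, hC⟩
        have h4 : ((64 ^ h) ^ 2 * ε) ^ 2 ^ ((n - od C - (N - h)) / h) ≤
            ((64 ^ h) ^ 2 * ε) ^ 2 ^ r := by
          refine pow_le_pow_of_le_one hδ0 hδ (Nat.pow_le_pow_right (by norm_num) ?_)
          exact Nat.div_le_div_right (by omega)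
        rw [hA, le_div_iff₀ hM, mul_comm]
        exact h3.trans h4) (by positivity)
      calc (64 ^ h) ^ 2 * Pr p (AlB h n B) ≤ (64 ^ h) ^ 2 * (64 ^ h * A) ^ 2 :=
            mul_le_mul_of_nonneg_left h2 hM.le
        _ = ((64 ^ h) ^ 2 * A) ^ 2 := by ring
        _ = (((64 ^ h) ^ 2 * ε) ^ 2 ^ r) ^ 2 := by
            rw [hA, mul_div_cancel₀ _ hM.ne']
        _ = ((64 ^ h) ^ 2 * ε) ^ 2 ^ (r + 1) := by
            rw [pow_succ 2 r, pow_mul ((64 ^ h) ^ 2 * ε) (2 ^ r) 2]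

theorem TB_le2 {h n N : ℕ} {p ε : ℝ} (h0 : 0 ≤ p) (h1 : p ≤ 1) (hh : 1 ≤ h) (hN : h < N)
    (hNn : N ≤ n) (hε : ∀ m, N - h ≤ m → m < N → TB h m p ≤ ε) (hδ : (64 ^ h) ^ 2 * ε ≤ 1)
    (hε0 : 0 ≤ ε) : TB h n p ≤ ((64 ^ h) ^ 2 * ε) ^ 2 ^ ((n - (N - h)) / h) := by
  have h2 := main2 h0 h1 hh hN hε hδ hε0 n (by omega) le_rfl cube (by
    rw [Nat.sub_self]
    exact Vl_cube)
  refine le_trans ?_ h2
  have h3 : 0 ≤ TB h n p := Pr_nonneg h0 h1 _
  have h4 : (1 : ℝ) ≤ (64 ^ h) ^ 2 := one_le_pow₀ (one_le_pow₀ (by norm_num))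
  exact le_mul_of_one_le_left h3 h4

/-- the critical point of the `h`-branching tilings -/
noncomputable def pch (h : ℕ) : ℝ :=
  sInf {p : ℝ | 0 ≤ p ∧ p ≤ 1 ∧ Tendsto (fun n => TB h n p) atTop (nhds 1)}

lemma bddB (h : ℕ) : BddBelow {p : ℝ | 0 ≤ p ∧ p ≤ 1 ∧ Tendsto (fun n => TB h n p) atTop (nhds 1)} :=
  ⟨0, fun _ hp => hp.1⟩

lemma pch_le {h : ℕ} {p : ℝ} (h0 : 0 ≤ p) (h1 : p ≤ 1)
    (H : Tendsto (fun n => TB h n p) atTop (nhds 1)) : pch h ≤ p := csInf_le (bddB h) ⟨h0, h1, H⟩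

lemma AlB_of_al {h n : ℕ} {B : Tl} {ω : It n → Bool} (hn : n ≤ od B + h) (H : Al n B ω) :
    AlB h n B ω := by
  obtain ⟨R, h1, h2⟩ := H
  refine ⟨R, h1, h2, .small B ?_ hn⟩
  intro x hx hxB
  obtain ⟨b, ⟨hb, hc⟩, -⟩ := h2 x hx hxB
  exact ⟨b, hb, (h1 b hb).2, hc⟩

lemma TB_eq {h n : ℕ} {p : ℝ} (hh : n ≤ h) : TB h n p = Pool.Agent.helper17.DyS.T n p :=
  Pr_congr fun ω => ⟨fun hω => hω.al, fun hω => AlB_of_al (by omega) hω⟩

lemma TB_le_T {h n : ℕ} {p : ℝ} (h0 : 0 ≤ p) (h1 : p ≤ 1) :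
    TB h n p ≤ Pool.Agent.helper17.DyS.T n p := Pr_mono h0 h1 fun _ hω => hω.al

lemma Good_le {n h h' : ℕ} (hh : h ≤ h') {R : Set (It n)} {B : Tl} (H : Good h R B) :
    Good h' R B := by
  induction H with
  | small B hU hn => exact .small B hU (by omega)
  | two B C D hU hC hD hCD _ _ ihC ihD =>
    exact .two B C D hU ⟨hC.1, hC.2.1, by have := hC.2.2; omega⟩
      ⟨hD.1, hD.2.1, by have := hD.2.2; omega⟩ hCD ihC ihD

lemma TB_mono_h {h h' n : ℕ} (hh : h ≤ h') {p : ℝ} (h0 : 0 ≤ p) (h1 : p ≤ 1) :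
    TB h n p ≤ TB h' n p := by
  refine Pr_mono h0 h1 fun ω hω => ?_
  obtain ⟨R, h1, h2, h3⟩ := hω
  exact ⟨R, h1, h2, Good_le hh h3⟩

lemma TB_tends_of {h k : ℕ} (hh : 1 ≤ h) (hk : k ≤ h) {p : ℝ} (h0 : 0 ≤ p) (h1 : p ≤ 1)
    (H : 1 - Pool.Agent.helper17.DyS.T k p < (1 / 8) ^ (k + 1)) :
    Tendsto (fun n => TB h n p) atTop (nhds 1) := by
  have : Fact (1 ≤ h) := ⟨hh⟩
  rw [← TB_eq hk] at H
  exact tends_one h0 h1 H

lemma pch_mem {h : ℕ} (hh : 1 ≤ h) {p : ℝ} (hp : 7 / 8 < p) (h1 : p ≤ 1) :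
    Tendsto (fun n => TB h n p) atTop (nhds 1) := by
  refine TB_tends_of (k := 0) hh (Nat.zero_le _) (by linarith) h1 ?_
  rw [T_zero]
  norm_num
  linarith

lemma pch_le_seven {h : ℕ} (hh : 1 ≤ h) : pch h ≤ 7 / 8 := by
  refine le_of_forall_gt_imp_ge_of_dense fun p hp => ?_
  rcases le_or_gt p 1 with h1 | h1
  · exact pch_le (by linarith) h1 (pch_mem hh hp h1)
  · exact (pch_le zero_le_one le_rfl (pch_mem hh (by norm_num) le_rfl)).trans h1.le

lemma exists_lt {h : ℕ} (hh : 1 ≤ h) {p : ℝ} (hp : pch h < p) : ∃ s, 0 ≤ s ∧ s < p ∧ s ≤ 1 ∧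
    Tendsto (fun n => TB h n s) atTop (nhds 1) := by
  have hne : {p : ℝ | 0 ≤ p ∧ p ≤ 1 ∧ Tendsto (fun n => TB h n p) atTop (nhds 1)}.Nonempty :=
    ⟨1, zero_le_one, le_rfl, pch_mem hh (by norm_num) le_rfl⟩
  obtain ⟨s, ⟨h0, h1, h2⟩, hs⟩ := exists_lt_of_csInf_lt hne hp
  exact ⟨s, h0, hs, h1, h2⟩

/-- above the critical point -/
theorem overp {h : ℕ} (hh : 1 ≤ h) {p : ℝ} (hp : pch h < p) (h1 : p ≤ 1) :
    ∃ c : ℝ, 0 < c ∧ ∃ N : ℕ, ∀ n : ℕ, N ≤ n → 1 - Real.exp (-(c * (n : ℝ) ^ 2)) ≤ TB h n p := by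
  have : Fact (1 ≤ h) := ⟨hh⟩
  -- two densities between
  have h7 := pch_le_seven hh
  obtain ⟨q, hq1, hq2, hq3⟩ : ∃ q, pch h < q ∧ q ≤ p ∧ q < 1 := by
    rcases h1.lt_or_eq with h2 | h2
    · exact ⟨p, hp, le_rfl, h2⟩
    · exact ⟨15 / 16, by linarith, by linarith, by norm_num⟩
  obtain ⟨s, hs0, hs1, hs2, hs3⟩ := exists_lt hh hq1
  -- a positive density
  set s' : ℝ := (s + q) / 2 with hs'
  have e1 : s < s' := by rw [hs']; linarith
  have e2 : s' < q := by rw [hs']; linarith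
  have hs4 : Tendsto (fun n => TB h n s') atTop (nhds 1) := by
    refine tendsto_of_tendsto_of_tendsto_of_le_of_le hs3 tendsto_const_nhds
      (fun n => T_mono hs0 e1.le (by linarith)) (fun n => T_le_one (by linarith) (by linarith))
  obtain ⟨c, hc, N, hN⟩ := super (η := h) (lt_of_le_of_lt hs0 e1) e2 hq3 hs4
  refine ⟨c, hc, N, fun n hn => ?_⟩
  have h3 := hN n hn
  have h4 : TB h n q ≤ TB h n p := T_mono (by linarith) hq2 h1
  linarith

/-- below the critical point -/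
theorem underp {h : ℕ} (hh : 1 ≤ h) {p : ℝ} (h0 : 0 ≤ p) (hp : p < pch h) :
    ∃ c : ℝ, 0 < c ∧ ∃ N : ℕ, ∀ n : ℕ, N ≤ n →
      TB h n p ≤ Real.exp (-(c * (2 : ℝ) ^ ((n : ℝ) / h))) := by
  have : Fact (1 ≤ h) := ⟨hh⟩
  have h7 := pch_le_seven hh
  have h1 : p ≤ 1 := by linarith
  obtain ⟨K, c, hc, hc1, N, H⟩ := window (η := h) (q := (p + pch h) / 2) h0 (by linarith)
    (by linarith) fun H => by
      have := pch_le (by linarith) (by linarith) H
      linarith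
  have hhr : (1 : ℝ) ≤ h := by exact_mod_cast hh
  -- a block which is long and small
  set L : ℝ := max (h / c) ((20 * h + 2) / c + 2 * h) with hL
  obtain ⟨m, hm1, -, hm3⟩ := H (max N (⌈L⌉₊ + 1)) (le_max_left _ _)
  have hmL : L < m := by
    have e1 : ⌈L⌉₊ + 1 ≤ m := (le_max_right _ _).trans hm1
    have e2 : L ≤ ⌈L⌉₊ := Nat.le_ceil L
    have e3 : ((⌈L⌉₊ + 1 : ℕ) : ℝ) ≤ m := by exact_mod_cast e1
    push_cast at e3
    linarith
  have hm4 : (h : ℝ) / c < m := lt_of_le_of_lt (le_max_left _ _) hmL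
  have hm5 : (20 * (h : ℝ) + 2) / c + 2 * h < m := lt_of_le_of_lt (le_max_right _ _) hmL
  have hmh : (h : ℝ) < c * m := by
    rw [div_lt_iff₀ hc] at hm4
    linarith
  have hmpos : (0 : ℝ) < m := by
    have : (0 : ℝ) ≤ h / c := by positivity
    linarith
  have hmh2 : h < m := by
    have e1 : (h : ℝ) < m := by
      have : c * m ≤ 1 * m := mul_le_mul_of_nonneg_right hc1 hmpos.le
      linarith
    exact_mod_cast e1
  have hm6 : 20 * (h : ℝ) + 2 < c * (m - h) := by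
    have e1 : (20 * (h : ℝ) + 2) / c < m - h := by linarith
    rw [div_lt_iff₀ hc] at e1
    linarith
  have hε : ∀ j, m - h ≤ j → j < m → TB h j p ≤ Real.exp (-(c * (m - h))) := by
    intro j hj1 hj2
    have e1 : (m : ℝ) - h ≤ j := by
      have : m ≤ j + h := by omega
      have : (m : ℝ) ≤ j + h := by exact_mod_cast this
      linarith
    refine (hm3 j (by nlinarith) hj2.le).trans (Real.exp_le_exp.2 ?_)
    nlinarith
  have hδ : ((64 : ℝ) ^ h) ^ 2 * Real.exp (-(c * (m - h))) ≤ Real.exp (-1) := by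
    have e1 : (64 : ℝ) ≤ Real.exp 5 := by
      have e2 : (2.7 : ℝ) ≤ Real.exp 1 := by have := Real.exp_one_gt_d9; linarith
      have e3 : Real.exp 5 = Real.exp 1 ^ 5 := by
        rw [← Real.exp_nat_mul]
        norm_num
      rw [e3]
      calc (64 : ℝ) ≤ 2.7 ^ 5 := by norm_num
        _ ≤ _ := pow_le_pow_left₀ (by norm_num) e2 5
    calc ((64 : ℝ) ^ h) ^ 2 * Real.exp (-(c * (m - h)))
        ≤ ((Real.exp 5) ^ h) ^ 2 * Real.exp (-(c * (m - h))) :=
          mul_le_mul_of_nonneg_right (pow_le_pow_left₀ (by positivity)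
            (pow_le_pow_left₀ (by norm_num) e1 h) 2) (Real.exp_pos _).le
      _ = Real.exp (10 * h - c * (m - h)) := by
          rw [← pow_mul, ← Real.exp_nat_mul, ← Real.exp_add]
          congr 1
          push_cast
          ring
      _ ≤ Real.exp (-1) := Real.exp_le_exp.2 (by linarith)
  have hexp1 : Real.exp (-1) ≤ 1 := by
    rw [← Real.exp_zero]
    exact Real.exp_le_exp.2 (by norm_num)
  refine ⟨(2 : ℝ) ^ (-((m : ℝ) / h)), by positivity, m, fun n hn => ?_⟩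
  refine (TB_le2 h0 h1 hh hmh2 hn hε (hδ.trans hexp1) (Real.exp_pos _).le).trans ?_
  refine (pow_le_pow_left₀ (by positivity) hδ _).trans ?_
  rw [← Real.exp_nat_mul]
  refine Real.exp_le_exp.2 ?_
  set r := (n - (m - h)) / h with hr
  have hr2 : ((n : ℝ) - m) / h ≤ r := by
    have e1 : n - (m - h) < h * (r + 1) := Nat.lt_mul_div_succ _ (by omega)
    have e2 : n + h < h * (r + 1) + m := by omega
    have e3 : (n : ℝ) + h < h * (r + 1) + m := by exact_mod_cast e2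
    rw [div_le_iff₀ (by linarith)]
    nlinarith
  have hpow : (2 : ℝ) ^ (((n : ℝ) - m) / h) ≤ 2 ^ r := by
    rw [← Real.rpow_natCast]
    exact Real.rpow_le_rpow_of_exponent_le (by norm_num) hr2
  have hsplit : (2 : ℝ) ^ (-((m : ℝ) / h)) * (2 : ℝ) ^ ((n : ℝ) / h) =
      (2 : ℝ) ^ (((n : ℝ) - m) / h) := by
    rw [← Real.rpow_add (by norm_num)]
    congr 1
    ring
  rw [hsplit]
  push_cast
  linarith

lemma pc_le_pch {h : ℕ} (hh : 1 ≤ h) : pc ≤ pch h := by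
  refine le_csInf ⟨1, zero_le_one, le_rfl, pch_mem hh (by norm_num) le_rfl⟩ ?_
  rintro p ⟨h0, h1, hp⟩
  refine pc_le h0 h1 ?_
  exact tendsto_of_tendsto_of_tendsto_of_le_of_le hp tendsto_const_nhds
    (fun n => TB_le_T h0 h1) (fun n => Pool.Agent.helper17.DyS.T_le_one h0 h1)

lemma pch_anti {h h' : ℕ} (hh : 1 ≤ h) (hle : h ≤ h') : pch h' ≤ pch h := by
  have : Fact (1 ≤ h') := ⟨hh.trans hle⟩
  refine le_csInf ⟨1, zero_le_one, le_rfl, pch_mem hh (by norm_num) le_rfl⟩ ?_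
  rintro p ⟨h0, h1, hp⟩
  refine pch_le h0 h1 ?_
  exact tendsto_of_tendsto_of_tendsto_of_le_of_le hp tendsto_const_nhds
    (fun n => TB_mono_h hle h0 h1) (fun n => T_le_one h0 h1)

lemma pch_tendsto : Tendsto pch atTop (nhds pc) := by
  rw [Metric.tendsto_atTop]
  intro ε hε
  have h7 := pc_le_seven
  set p : ℝ := min (pc + ε / 2) 1 with hp
  have hp1 : pc < p := lt_min (by linarith) (by linarith)
  have hp2 : p ≤ 1 := min_le_right _ _
  have hp0 : 0 ≤ p := by have := le_pc; linarith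
  have hp3 : p ≤ pc + ε / 2 := min_le_left _ _
  obtain ⟨k, hk⟩ := (criterion hp0 hp2).1 hp1
  refine ⟨k + 1, fun h hh => ?_⟩
  have h2 : pch h ≤ p := pch_le hp0 hp2 (TB_tends_of (by omega) (by omega) hp0 hp2 hk)
  have h3 := pc_le_pch (h := h) (by omega)
  rw [Real.dist_eq, abs_lt]
  constructor <;> linarith

theorem TB_seq_over {p : ℝ} (hp : pc < p) (h1 : p ≤ 1) (h : ℕ → ℕ)
    (hh : Tendsto h atTop atTop) : Tendsto (fun n => TB (h n) n p) atTop (nhds 1) := by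
  have hp0 : 0 ≤ p := by have := le_pc; linarith
  obtain ⟨k, hk⟩ := (criterion hp0 h1).1 hp
  refine tendsto_of_tendsto_of_tendsto_of_le_of_le'
    (TB_tends_of (h := k + 1) (by omega) (by omega) hp0 h1 hk) tendsto_const_nhds ?_
    (Eventually.of_forall fun n => TB_le_one hp0 h1)
  filter_upwards [hh.eventually_ge_atTop (k + 1)] with n hn
  exact TB_mono_h hn hp0 h1

end Pool.Agent.helper7.BlP
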