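import Pool.Agent.helper7.BlP.Slabs
import Pool.Agent.helper17.DyS.Search

/-!
# The adaptive search for branching tilings
-/

set_option autoImplicit false
open scoped Classical
open Finset Filter Topology Pool.Agent.helper17.Dya Pool.Agent.helper17.DyS Pool.Agent.helper7.Blk

namespace Pool.Agent.helper7.BlP

variable {η : ℕ} [Fact (1 ≤ η)]

/-- reveal all boxes inside of `B` -/
noncomputable def all (η n : ℕ) (B : Tl) : DT (It n) :=
  rev (univ.filter fun b : It n => Sb b.1 B).toList (fun ω => decide (AlB η n B ω)) fun _ => false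

lemma eval_all (n : ℕ) (B : Tl) (ω : It n → Bool) : (all η n B).eval ω = decide (AlB η n B ω) := by
  unfold all
  rw [eval_rev]
  refine decide_eq_decide.2 (AlB_dep η n B _ _ fun b hb => ?_)
  have hb' : Sb b.1 B := hb
  simp [hb']

lemma Q_all (n : ℕ) (B : Tl) (ω : It n → Bool) (b : It n) : (all η n B).Q ω b ↔ Sb b.1 B := by
  unfold all
  rw [Q_rev]
  simp

/-- the search in the box `B` of order `k + j` -/
noncomputable def Sr (η n : ℕ) (d : ℕ → Fin 3) (k : ℕ) : ℕ → Tl → DT (It n)
  | 0, B => all η n B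
  | j + 1, B => (Sr η n d k j (ch B (d (k + j)) 0)).bind fun r =>
      (Sr η n d k j (ch B (d (k + j)) 1)).bind fun r' => if r && r' then .leaf true else all η n B

lemma eval_Sr {n : ℕ} {d : ℕ → Fin 3} {k : ℕ} (j : ℕ) (B : Tl) (hB : ∀ i, B.1 i + (k + j) ≤ n) (hV : Vp B)
    (ω : It n → Bool) : (Sr η n d k j B).eval ω = decide (AlB η n B ω) := by
  induction j generalizing B with
  | zero => exact eval_all n B ω
  | succ j ih =>
    have hc : ∀ e i, (ch B (d (k + j)) e).1 i + (k + j) ≤ n := by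
      intro e i
      have := hB i
      unfold ch
      dsimp only
      split_ifs <;> omega
    show ((Sr η n d k j (ch B (d (k + j)) 0)).bind fun r =>
      (Sr η n d k j (ch B (d (k + j)) 1)).bind fun r' =>
        if r && r' then .leaf true else all η n B).eval ω = _
    rw [eval_bind, eval_bind, ih _ (hc 0) (Vp_ch hV _ (by norm_num)),
      ih _ (hc 1) (Vp_ch hV _ (by norm_num))]
    by_cases h0 : AlB η n (ch B (d (k + j)) 0) ω
    · by_cases h1 : AlB η n (ch B (d (k + j)) 1) ω
      · have h2 : AlB η n B ω := AlB_spl hV (d (k + j)) (by have := hB (d (k + j)); omega) h0 h1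
        simp [h0, h1, h2, DT.eval]
      · simp only [h0, h1, decide_true, decide_false, Bool.and_false, Bool.false_eq_true,
          if_false]
        exact eval_all n B ω
    · simp only [h0, decide_false, Bool.false_and, Bool.false_eq_true, if_false]
      exact eval_all n B ω

/-- the bound for the probability that the box `t` is revealed -/
noncomputable def bd (η n k : ℕ) (d : ℕ → Fin 3) (p : ℝ) (j : ℕ) (t : Tl) : ℝ :=
  (if ∀ i, shp d n k i ≤ t.1 i then (1 : ℝ) else 0) +
    ∑ m ∈ Ico k (k + j), if ∀ i, shp d n (m + 1) i ≤ t.1 i then 2 * (1 - TB η m p) else 0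

lemma Search_T_le_one {η : ℕ} {p : ℝ} (h0 : 0 ≤ p) (h1 : p ≤ 1) (m : ℕ) : TB η m p ≤ 1 := Pr_le_one h0 h1 _

lemma Search_T_nonneg {p : ℝ} (h0 : 0 ≤ p) (h1 : p ≤ 1) (m : ℕ) : 0 ≤ TB η m p := Pr_nonneg h0 h1 _

lemma bd_nonneg {n k : ℕ} {d : ℕ → Fin 3} {p : ℝ} (h0 : 0 ≤ p) (h1 : p ≤ 1) (j : ℕ) (t : Tl) :
    0 ≤ bd η n k d p j t := by
  unfold bd
  refine add_nonneg (by split_ifs <;> norm_num) (sum_nonneg fun m _ => ?_)
  have := Search_T_le_one (η := η) h0 h1 m
  split_ifs <;> linarith

lemma Pr_Sr {n k : ℕ} {d : ℕ → Fin 3} {p : ℝ} (h0 : 0 ≤ p) (h1 : p ≤ 1) (t : It n) (j : ℕ)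
    (B : Tl) (hj : k + j ≤ n) (hB : Vl (n - (k + j)) B) (hs : B.1 = shp d n (k + j)) :
    Pr p (fun ω => (Sr η n d k j B).Q ω t) ≤ if Sb t.1 B then bd η n k d p j t.1 else 0 := by
  induction j generalizing B with
  | zero =>
    have h2 : Pr p (fun ω => (Sr η n d k 0 B).Q ω t) = Pr p (fun _ : It n → Bool => Sb t.1 B) :=
      Pr_congr fun ω => Q_all n B ω t
    rw [h2]
    by_cases h : Sb t.1 B
    · rw [if_pos h]
      refine (Pr_le_one h0 h1 _).trans ?_
      unfold bd
      have h3 : ∀ i, shp d n k i ≤ t.1.1 i := by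
        intro i
        have := (h i).1
        rw [hs] at this
        exact this
      rw [if_pos h3]
      simp
    · rw [if_neg h]
      have h3 : Pr p (fun _ : It n → Bool => Sb t.1 B) = Pr p (fun _ : It n → Bool => False) :=
        Pr_congr fun ω => iff_of_false h id
      rw [h3, Pr_false]
  | succ j ih =>
    have hn : k + j < n := by omega
    have hV : ∀ e, e < 2 → Vl (n - (k + j)) (ch B (d (k + j)) e) := by
      intro e he
      have := Vl_ch hB (d (k + j)) he
      rwa [show n - (k + (j + 1)) + 1 = n - (k + j) by omega] at this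
    have hS : ∀ e, (ch B (d (k + j)) e).1 = shp d n (k + j) := by
      intro e
      funext i
      rw [shp_succ hn i]
      unfold ch
      dsimp only
      rw [hs]
      by_cases h : i = d (k + j)
      · rw [if_pos h, if_pos h]
        rfl
      · rw [if_neg h, if_neg h]
        rfl
    have hm : ∀ i, B.1 i + (k + (j + 1)) ≤ n := by
      intro i
      have := Vl.le hB i
      omega
    have hc : ∀ e i, (ch B (d (k + j)) e).1 i + (k + j) ≤ n := by
      intro e i
      have := hm i
      unfold ch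
      dsimp only
      split_ifs <;> omega
    have hQ : ∀ ω, (Sr η n d k (j + 1) B).Q ω t ↔
        (Sr η n d k j (ch B (d (k + j)) 0)).Q ω t ∨ ((Sr η n d k j (ch B (d (k + j)) 1)).Q ω t ∨
          ((¬ AlB η n (ch B (d (k + j)) 0) ω ∨ ¬ AlB η n (ch B (d (k + j)) 1) ω) ∧ Sb t.1 B)) := by
      intro ω
      show ((Sr η n d k j (ch B (d (k + j)) 0)).bind fun r =>
        (Sr η n d k j (ch B (d (k + j)) 1)).bind fun r' =>
          if r && r' then .leaf true else all η n B).Q ω t ↔ _
      rw [Q_bind, Q_bind, eval_Sr j _ (hc 0) (Vp_ch hB.2 _ (by norm_num)),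
        eval_Sr j _ (hc 1) (Vp_ch hB.2 _ (by norm_num))]
      refine or_congr Iff.rfl (or_congr Iff.rfl ?_)
      by_cases g0 : AlB η n (ch B (d (k + j)) 0) ω
      · by_cases g1 : AlB η n (ch B (d (k + j)) 1) ω
        · simp [g0, g1, DT.Q]
        · simp [g0, g1, Q_all]
      · simp [g0, Q_all]
    have hP : Pr p (fun ω => (Sr η n d k (j + 1) B).Q ω t) ≤
        Pr p (fun ω => (Sr η n d k j (ch B (d (k + j)) 0)).Q ω t) +
        (Pr p (fun ω => (Sr η n d k j (ch B (d (k + j)) 1)).Q ω t) +
          Pr p (fun ω => (¬ AlB η n (ch B (d (k + j)) 0) ω ∨ ¬ AlB η n (ch B (d (k + j)) 1) ω) ∧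
            Sb t.1 B)) := by
      rw [Pr_congr hQ]
      refine (Pr_or_le h0 h1 _ _).trans ?_
      have := Pr_or_le h0 h1 (fun ω => (Sr η n d k j (ch B (d (k + j)) 1)).Q ω t)
        (fun ω => (¬ AlB η n (ch B (d (k + j)) 0) ω ∨ ¬ AlB η n (ch B (d (k + j)) 1) ω) ∧ Sb t.1 B)
      linarith
    have i0 := ih (ch B (d (k + j)) 0) (by omega) (hV 0 (by norm_num)) (hS 0)
    have i1 := ih (ch B (d (k + j)) 1) (by omega) (hV 1 (by norm_num)) (hS 1)
    by_cases h : Sb t.1 B
    · rw [if_pos h]
      have h3 : Pr p (fun ω => (¬ AlB η n (ch B (d (k + j)) 0) ω ∨ ¬ AlB η n (ch B (d (k + j)) 1) ω) ∧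
          Sb t.1 B) ≤ 2 * (1 - TB η (k + j) p) := by
        refine (Pr_mono h0 h1 (F := fun ω => ¬ AlB η n (ch B (d (k + j)) 0) ω ∨
          ¬ AlB η n (ch B (d (k + j)) 1) ω) fun ω hω => hω.1).trans ?_
        refine (Pr_or_le h0 h1 _ _).trans ?_
        rw [Pr_not, Pr_not, Pr_AlB (by omega) (hV 0 (by norm_num)),
          Pr_AlB (by omega) (hV 1 (by norm_num))]
        linarith
      have h4 : (if Sb t.1 (ch B (d (k + j)) 0) then bd η n k d p j t.1 else 0) +
          (if Sb t.1 (ch B (d (k + j)) 1) then bd η n k d p j t.1 else 0) ≤ bd η n k d p j t.1 := by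
        have hb := bd_nonneg (η := η) (n := n) (k := k) (d := d) h0 h1 j t.1
        by_cases g0 : Sb t.1 (ch B (d (k + j)) 0)
        · by_cases g1 : Sb t.1 (ch B (d (k + j)) 1)
          · exact (ch_Sb_disj g0 g1).elim
          · rw [if_pos g0, if_neg g1, add_zero]
        · rw [if_neg g0, zero_add]
          split_ifs
          · exact le_refl _
          · exact hb
      have h5 : bd η n k d p (j + 1) t.1 = bd η n k d p j t.1 + 2 * (1 - TB η (k + j) p) := by
        have h6 : ∀ i, shp d n (k + j + 1) i ≤ t.1.1 i := by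
          intro i
          have := (h i).1
          rw [hs] at this
          exact this
        unfold bd
        rw [show k + (j + 1) = k + j + 1 from rfl, sum_Ico_succ_top (by omega), if_pos h6,
          add_assoc]
      rw [h5]
      linarith
    · rw [if_neg h]
      have g : ∀ e, e < 2 → ¬ Sb t.1 (ch B (d (k + j)) e) := fun e he hh =>
        h (hh.trans (Sb_ch he))
      rw [if_neg (g 0 (by norm_num))] at i0
      rw [if_neg (g 1 (by norm_num))] at i1
      have h3 : Pr p (fun ω => (¬ AlB η n (ch B (d (k + j)) 0) ω ∨ ¬ AlB η n (ch B (d (k + j)) 1) ω) ∧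
          Sb t.1 B) = 0 := by
        rw [← Pr_false (ι := It n) (p := p)]
        exact Pr_congr fun ω => iff_of_false (fun hh => h hh.2) id
      linarith

/-- the inequality of O'Donnell, Saks, Schramm and Servedio for the adaptive search -/
theorem search {n k : ℕ} (hk : k ≤ n) (d : ℕ → Fin 3) {p : ℝ} (h0 : 0 ≤ p) (h1 : p ≤ 1) :
    TB η n p * (1 - TB η n p) ≤ ∑ t : It n, ((if ∀ i, shp d n k i ≤ t.1.1 i then (1 : ℝ) else 0) +
      ∑ m ∈ Finset.Ico k n, if ∀ i, shp d n (m + 1) i ≤ t.1.1 i then 2 * (1 - TB η m p) else 0) *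
        Pr p (Piv (AlB η n cube) t) := by
  have h2 := osss h0 h1 (AlB_incr η n cube) (Sr η n d k (n - k) cube) (fun ω => by
    rw [eval_Sr (n - k) cube (fun i => by
      show 0 + (k + (n - k)) ≤ n
      omega) Vl_cube.2]
    exact decide_eq_true_iff)
  refine h2.trans (sum_le_sum fun t _ => mul_le_mul_of_nonneg_right ?_ (Pr_nonneg h0 h1 _))
  have h3 := Pr_Sr (η := η) (n := n) (k := k) (d := d) h0 h1 t (n - k) cube (by omega) (by
    rw [show n - (k + (n - k)) = 0 by omega]
    exact ⟨by simp [cube], fun i => by simp [cube]⟩) (by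
    rw [show k + (n - k) = n by omega, shp_self]
    rfl)
  refine h3.trans ?_
  have h4 := bd_nonneg (η := η) (n := n) (k := k) (d := d) h0 h1 (n - k) t.1
  have h5 : bd η n k d p (n - k) t.1 = (if ∀ i, shp d n k i ≤ t.1.1 i then (1 : ℝ) else 0) +
      ∑ m ∈ Finset.Ico k n, if ∀ i, shp d n (m + 1) i ≤ t.1.1 i then 2 * (1 - TB η m p) else 0 := by
    unfold bd
    rw [show k + (n - k) = n by omega]
  rw [← h5]
  split_ifs
  · exact le_refl _
  · exact h4


end Pool.Agent.helper7.BlP
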