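import Pool.Agent.helper7.BlP.Avg
import Pool.Agent.helper17.DyS.Win

/-!
# Windows of good scales
-/

set_option autoImplicit false
open scoped Classical
open Finset Filter Topology Pool.Agent.helper17.Dya Pool.Agent.helper17.DyS Pool.Agent.helper7.Blk

namespace Pool.Agent.helper7.BlP

variable {η : ℕ} [Fact (1 ≤ η)]

lemma T_mono {n : ℕ} {a b : ℝ} (ha : 0 ≤ a) (hab : a ≤ b) (hb : b ≤ 1) : TB η n a ≤ TB η n b :=
  Pr_mono_p (AlB_incr η n cube) ha hab hb

lemma var_nonneg {n : ℕ} {p : ℝ} (h0 : 0 ≤ p) (h1 : p ≤ 1) : 0 ≤ TB η n p * (1 - TB η n p) :=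
  mul_nonneg (T_nonneg (η := η) h0 h1) (by have := T_le_one (η := η) (n := n) h0 h1; linarith)

lemma poinc {n : ℕ} {p : ℝ} (h0 : 0 ≤ p) (h1 : p ≤ 1) :
    TB η n p * (1 - TB η n p) ≤ Infl p (AlB η n cube) := by
  have h := search (η := η) (le_refl n) (fun _ => 0) h0 h1
  refine h.trans (sum_le_sum fun t _ => ?_)
  rw [Ico_self, sum_empty, add_zero]
  have h2 := Pr_nonneg h0 h1 (Piv (AlB η n cube) t)
  split_ifs
  · rw [one_mul]
  · rw [zero_mul]
    exact h2

theorem infl_lin {a : ℝ} (ha : 0 < a) (ha2 : a ≤ 1 / 2) : ∃ c : ℝ, 0 < c ∧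
    ∀ (n : ℕ) (p : ℝ), a ≤ p → p ≤ 1 - a →
      c * n * (TB η n p * (1 - TB η n p)) ≤ Infl p (AlB η n cube) := by
  obtain ⟨C, hC, hk⟩ := kkl ha ha2
  refine ⟨min (1 / 4) (1 / (4 * C)), by positivity, ?_⟩
  intro n p h1 h2
  have h0 : 0 ≤ p := by linarith
  have h1' : p ≤ 1 := by linarith
  have hV := var_nonneg (η := η) (n := n) h0 h1'
  have hV2 : TB η n p * (1 - TB η n p) ≤ 1 / 4 := by nlinarith [sq_nonneg (TB η n p - 1 / 2)]
  have hI := poinc (η := η) (n := n) h0 h1'
  have hc1 : min (1 / 4 : ℝ) (1 / (4 * C)) ≤ 1 / 4 := min_le_left _ _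
  have hc2 : min (1 / 4 : ℝ) (1 / (4 * C)) ≤ 1 / (4 * C) := min_le_right _ _
  have hn0 : (0 : ℝ) ≤ n := Nat.cast_nonneg n
  by_cases hn : n < 4
  · have h3 : (n : ℝ) ≤ 4 := by exact_mod_cast hn.le
    calc min (1 / 4 : ℝ) (1 / (4 * C)) * n * (TB η n p * (1 - TB η n p))
        ≤ 1 / 4 * 4 * (TB η n p * (1 - TB η n p)) :=
          mul_le_mul_of_nonneg_right (mul_le_mul hc1 h3 hn0 (by norm_num)) hV
      _ = TB η n p * (1 - TB η n p) := by ring
      _ ≤ _ := hI
  · push Not at hn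
    by_cases hIn : (n : ℝ) ≤ Infl p (AlB η n cube)
    · calc min (1 / 4 : ℝ) (1 / (4 * C)) * n * (TB η n p * (1 - TB η n p))
          ≤ 1 / 4 * n * (1 / 4) := by
            apply mul_le_mul (mul_le_mul_of_nonneg_right hc1 hn0) hV2 hV (by positivity)
        _ ≤ n := by nlinarith
        _ ≤ _ := hIn
    · push Not at hIn
      have h4 : ∀ b, Pr p (Piv (AlB η n cube) b) ≤ Real.exp (-((n : ℝ) / 4)) := by
        intro b
        have h5 := piv_le (h := η) (n := n) h0 h1' b
        have h6 := pow_exp hn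
        have h7 : (2 : ℝ) ^ n * Pr p (Piv (AlB η n cube) b) ≤
            2 ^ n * Real.exp (-((n : ℝ) / 4)) := by
          refine (h5.trans hIn.le).trans ?_
          rw [Real.exp_neg, ← div_eq_mul_inv, le_div_iff₀ (Real.exp_pos _)]
          exact h6
        exact le_of_mul_le_mul_left h7 (by positivity)
      have h8 := hk (It n) p h1 h2 (AlB η n cube) (AlB_incr η n cube) (n / 4) (by
        have : (4 : ℝ) ≤ n := by exact_mod_cast hn
        linarith) h4
      have h9 : (n : ℝ) / 4 * (TB η n p * (1 - TB η n p)) ≤ C * Infl p (AlB η n cube) := h8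
      calc min (1 / 4 : ℝ) (1 / (4 * C)) * n * (TB η n p * (1 - TB η n p))
          ≤ 1 / (4 * C) * n * (TB η n p * (1 - TB η n p)) :=
            mul_le_mul_of_nonneg_right (mul_le_mul_of_nonneg_right hc2 hn0) hV
        _ = (n / 4 * (TB η n p * (1 - TB η n p))) / C := by field_simp
        _ ≤ Infl p (AlB η n cube) := by
            rw [div_le_iff₀ hC]
            linarith

/-- exponential bounds on both sides of the level `1 / 2` -/
theorem win1 {a : ℝ} (ha : 0 < a) (ha2 : a ≤ 1 / 2) : ∃ c : ℝ, 0 < c ∧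
    (∀ (n : ℕ) (p q : ℝ), a ≤ p → p ≤ q → q ≤ 1 - a → 1 / 2 ≤ TB η n p →
      1 - TB η n q ≤ Real.exp (-(c * (q - p) * n))) ∧
    (∀ (n : ℕ) (p q : ℝ), a ≤ p → p ≤ q → q ≤ 1 - a → TB η n q ≤ 1 / 2 →
      TB η n p ≤ Real.exp (-(c * (q - p) * n))) := by
  obtain ⟨c, hc, h⟩ := infl_lin (η := η) ha ha2
  refine ⟨c / 2, by positivity, ?_, ?_⟩
  · intro n p q h1 h2 h3 h4
    have := grow (AlB_incr η n cube) (M := c * n) (by linarith) h2 (by linarith) (by positivity)
      (fun r hr1 hr2 => h n r (by linarith) (by linarith)) h4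
    rwa [show c * n * (q - p) / 2 = c / 2 * (q - p) * n by ring] at this
  · intro n p q h1 h2 h3 h4
    have := decay (AlB_incr η n cube) (M := c * n) (by linarith) h2 (by linarith) (by positivity)
      (fun r hr1 hr2 => h n r (by linarith) (by linarith)) h4
    rwa [show c * n * (q - p) / 2 = c / 2 * (q - p) * n by ring] at this

/-- a long window of good scales makes the probability of failure very small -/
theorem win2 {p q : ℝ} (hp : 0 < p) (hpq : p < q) (hq : q < 1) : ∃ c : ℝ, 0 < c ∧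
    ∀ k n : ℕ, 1 ≤ k → k ≤ n → (∀ m, k ≤ m → m ≤ n → 1 / 2 ≤ TB η m p) →
      1 - TB η n q ≤ Real.exp (-(c * (n : ℝ) ^ 2 / (k : ℝ) ^ 2)) := by
  have ha : 0 < min (min p (1 - q)) (1 / 2) :=
    lt_min (lt_min hp (by linarith)) (by norm_num)
  have ha1 : min (min p (1 - q)) (1 / 2) ≤ p := (min_le_left _ _).trans (min_le_left _ _)
  have ha3 : min (min p (1 - q)) (1 / 2) ≤ 1 - q := (min_le_left _ _).trans (min_le_right _ _)
  obtain ⟨c, hc, hw, -⟩ := win1 (η := η) ha (min_le_right _ _)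
  have hc1 : 0 < c * ((q - p) / 2) := mul_pos hc (by linarith)
  obtain ⟨C, hC, hb⟩ := infl_big (η := η) hc1 one_pos
  refine ⟨(q - p) / (4 * C), div_pos (by linarith) (by positivity), ?_⟩
  intro k n hk hkn hT
  have hk0 : (0 : ℝ) < k := by exact_mod_cast hk
  have h1 : ∀ r, (p + q) / 2 ≤ r → r ≤ q → (n : ℝ) ^ 2 / (C * (k : ℝ) ^ 2) *
      (Pr r (AlB η n cube) * (1 - Pr r (AlB η n cube))) ≤ Infl r (AlB η n cube) := by
    intro r hr1 hr2
    have h2 := hb n k r (by linarith) (by linarith) hk hkn (by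
      intro m hm1 hm2
      have h3 := hw m p ((p + q) / 2) ha1 (by linarith) (by linarith) (hT m hm1 hm2)
      have h4 : TB η m ((p + q) / 2) ≤ TB η m r := T_mono (η := η) (by linarith) hr1 (by linarith)
      rw [one_mul]
      rw [show (p + q) / 2 - p = (q - p) / 2 by ring] at h3
      linarith)
    rw [div_mul_eq_mul_div, div_le_iff₀ (by positivity)]
    have h5 : Infl r (AlB η n cube) * (C * (k : ℝ) ^ 2) = C * (k : ℝ) ^ 2 * Infl r (AlB η n cube) := by
      ring
    rw [h5]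
    exact h2
  have h6 := grow (AlB_incr η n cube) (M := (n : ℝ) ^ 2 / (C * (k : ℝ) ^ 2)) (a := (p + q) / 2)
    (b := q) (by linarith) (by linarith) hq.le (by positivity) h1 (by
      have h7 : TB η n p ≤ TB η n ((p + q) / 2) := T_mono (η := η) hp.le (by linarith) (by linarith)
      have h8 := hT n hkn (le_refl n)
      exact h8.trans h7)
  refine h6.trans (le_of_eq ?_)
  congr 2
  field_simp
  ring


end Pool.Agent.helper7.BlP
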